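import Pool.Agent.Helper6.OB.Goals

/-!
Project OB (MP_81e84b_lc): packet STP.
-/

set_option autoImplicit false

namespace Pool.Agent.Helper91.OB

open Pool.Agent.Helper6.CS Pool.Agent.Helper6.OB
open Pool.Agent.Helper41.CS (Vx OOW limW len_app get_app_lt get_app_ge app_assoc len_nil nil_app
  app_nil len_sg get_sg over_nil over_app over_sg len_sub get_sub sub_app over_sub sub_eq_self
  sub_sg_self)

set_option synthInstance.maxSize 1000000000

theorem t_STP : Pool.Agent.Helper6.OB.G_STP := by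
  intro hREC hPH hKON hGRE hLMO hLST hPR hPTH hURL hURP hMN0 hMNX hMNS hMNE M _ a b H G Φ ha hab
    hSt hΦ
  obtain ⟨ρ, hρ⟩ := hΦ.bd
  obtain ⟨ρ₂, hρ₂⟩ := hSt.bd
  obtain ⟨g₀, S, hP⟩ := hPTH hREC hKON hGRE hLMO hLST hPR M a b ρ H G Φ hSt hΦ hρ
  have := hP.ig
  have := hSt.ifn
  have := hSt.ip
  have := hΦ.ifn
  have hgn : Gn a b G Φ (gp g₀) := by
    intro L r
    obtain ⟨B, hB⟩ := hP.g1 (nb b L) L r
    refine ⟨B, fun χ hχ => ?_⟩
    obtain ⟨y, h1, h2, h3, h4, h5⟩ := hB χ hχ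
    refine ⟨y, h1, h2, h3, h4, fun p hp hl => ?_⟩
    have hc : (Cod.cd p : M) < nb b L := nb_spec hp hl
    rw [h5 p hp (by rwa [Wd.len_of]), Wd.get_of_lt _ _ hc]
    rfl
  have hur := hURP hLMO hLST hURL M a b ρ H G Φ g₀ S hab hSt hΦ hP
  have hgbd : ∀ p, gp g₀ p < ρ := fun p => hP.bd _
  have hmany := hMNE hPH hMN0 hMNX hMNS M a b ρ H G Φ (gp g₀) ha hab hSt hΦ inferInstance hgbd
    hgn hur
  have key : ∀ p z : Wd M, nH (gp g₀) H (p ++ z) = nH (gp g₀) H p →
      gp g₀ (p ++ z) = gp g₀ p ∧ H (p ++ z) = H p := fun p z h => pr_inj h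
  refine ⟨gp g₀, inferInstance, ?_⟩
  refine { ifn := inferInstance, ip := inferInstance, bd := ?_, mono := ?_, p2 := ?_, p3 := ?_,
           p4 := ?_, ur := hur, many := hmany }
  · exact ⟨pr ρ ρ₂, fun p => pr_lt (add_lt_add (hgbd p) (hρ₂ p))⟩
  · exact fun L L' y hL h => ⟨hSt.mono L L' y hL h.1, fun p hp hl => h.2 p hp (hl.trans hL)⟩
  · intro L y hBk hG p hp hl c hc
    unfold nH
    rw [(hG.2 p hp hl).2 c hc, hSt.p2 L y hBk hG.1 p hp hl c hc]
  · intro L y z hBk hz hG hH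
    refine ⟨hSt.p3 L y z hBk hz hG.1 fun p hp hl => (key p z (hH p hp hl)).2, fun p hp hl => ?_⟩
    have hpz : Over b (p ++ z) := over_app hp (Over.mono hab hz)
    have hlz : (p ++ z).len ≤ L + z.len := by
      rw [len_app]
      gcongr
    have h1 := hG.2 (p ++ z) hpz hlz
    have h2 := (key p z (hH p hp hl)).1
    refine ⟨by rw [hΦ.f1 p z y hp hBk hz, h1.1, h2], fun c hc => ?_⟩
    rw [bl_left, ← app_assoc, h1.2 c hc, h2]
  · intro L y z hBk hz hG hH
    refine ⟨hSt.p4 L y z hBk hz hG.1 fun q hq hl => (key q z (hH q hq hl)).2, fun p hp hl => ?_⟩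
    have h1 := hG.2 p hp hl
    have hL : p.len + lb y ≤ L + lb y := by gcongr
    refine ⟨by rw [hΦ.f2 p y z hp hBk hz fun q hq hlq => (key q z (hH q hq (hlq.trans hL))).2,
      h1.1], fun c hc => ?_⟩
    have hq : Over b (p ++ bl a c y) := over_app hp (over_bl hBk hab (hc.trans_le hab))
    have hlq : (p ++ bl a c y).len ≤ L + lb y := by
      rw [len_app, len_bl]
      exact hL
    rw [bl_right hz, ← app_assoc, (key _ z (hH _ hq hlq)).1, h1.2 c hc]

end Pool.Agent.Helper91.OB
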