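import Pool.Agent.Helper73.OB.GoalsB

/-!
# Project OB, packet U2: the laws of the skeleton fields agree.
-/

open MeasureTheory ProbabilityTheory
open scoped ENNReal

namespace Pool.Agent.Helper91.OB

open Pool.Agent.Helper73.OB

theorem field_meas {S X : Type} [MeasurableSpace X] {β : S → S} {p : Bit → S} {δ : Bit}
    {e : unitInterval} {μ : Measure X} {f : S → X → X} {s : X → Sk} (hf : Sys β μ f)
    (hs : TM β p δ e μ f s) : Measurable (field β f s) := by
  rw [measurable_pi_iff]
  intro w
  exact hs.meas.comp (hf.run_mp w.1).measurable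

theorem u2 (h1 : S_U1) : S_U2 := by
  intro S _ β p δ hfr e X X' _ _ μ μ' _ _ f f' hf hf' s s' hs hs'
  classical
  have hm := field_meas hf hs
  have hm' := field_meas hf' hs'
  have : IsProbabilityMeasure (μ.map (field β f s)) := Measure.isProbabilityMeasure_map hm.aemeasurable
  have : IsProbabilityMeasure (μ'.map (field β f' s')) :=
    Measure.isProbabilityMeasure_map hm'.aemeasurable
  refine ext_of_generate_finite
    (squareCylinders fun _ : RW β ↦ {t : Set Sk | MeasurableSet t})
    generateFrom_squareCylinders.symm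
    (isPiSystem_squareCylinders (fun _ ↦ MeasurableSpace.isPiSystem_measurableSet)
      (fun _ ↦ (show MeasurableSet (Set.univ : Set Sk) from MeasurableSet.univ))) ?_ (by simp)
  rintro T ⟨A, t, ht, rfl⟩
  have ht' : ∀ w, MeasurableSet (t w) := fun w ↦ ht w (Set.mem_univ w)
  have hT : MeasurableSet ((A : Set (RW β)).pi t) :=
    MeasurableSet.pi A.countable_toSet fun w _ ↦ ht' w
  rw [Measure.map_apply hm hT, Measure.map_apply hm' hT]
  have key := h1 S β p δ hfr e X X' μ μ' f f' hf hf' s s' hs hs' (A.image Subtype.val)
    (fun w ↦ if h : Red β w then t ⟨w, h⟩ else Set.univ) (fun w hw ↦ by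
      obtain ⟨v, -, rfl⟩ := Finset.mem_image.1 hw
      exact v.2) (fun w ↦ by
      by_cases h : Red β w
      · rw [dif_pos h]
        exact ht' _
      · rw [dif_neg h]
        exact MeasurableSet.univ)
  have e1 : ∀ (Y : Type) (g : S → Y → Y) (r : Y → Sk),
      field β g r ⁻¹' ((A : Set (RW β)).pi t) =
      {x | ∀ w ∈ A.image Subtype.val, r (run g w x) ∈
        (if h : Red β w then t ⟨w, h⟩ else Set.univ)} := by
    intro Y g r
    ext x
    constructor
    · intro hx w hw
      obtain ⟨v, hv, rfl⟩ := Finset.mem_image.1 hw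
      rw [dif_pos v.2]
      exact hx v hv
    · intro hx v hv
      have := hx v.1 (Finset.mem_image_of_mem _ hv)
      rw [dif_pos v.2] at this
      exact this
  rw [e1, e1]
  exact key

end Pool.Agent.Helper91.OB
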