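import Pool.Agent.Helper79.OB.GoalsC

/-!
# Project OB, packet CHAIN: the composition of the steps.
-/

open MeasureTheory
open scoped ENNReal

namespace Pool.Agent.Helper91.OB

open Pool.Agent.Helper73.OB Pool.Agent.Helper79.OB

theorem tail_mono {S X : Type} [MeasurableSpace X] {μ : Measure X} {f g : S → X → X}
    {C c α C' c' α' : ℝ} (h : Tail μ f g C c α) (hC : C ≤ C') (hC' : 0 ≤ C') (hc : c' ≤ c)
    (hc0 : 0 < c') (hα : α' ≤ α) (hα0 : 0 < α') : Tail μ f g C' c' α' := by
  intro n a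
  refine (h n a).trans (ENNReal.ofReal_le_ofReal ?_)
  have h1 : Real.exp (-(c * (n : ℝ) ^ α)) ≤ Real.exp (-(c' * (n : ℝ) ^ α')) := by
    rw [Real.exp_le_exp, neg_le_neg_iff]
    rcases Nat.eq_zero_or_pos n with h0 | h0
    · rw [h0]
      rw [Nat.cast_zero, Real.zero_rpow hα0.ne', Real.zero_rpow (hα0.trans_le hα).ne']
      simp
    · have hn : (1 : ℝ) ≤ n := by exact_mod_cast h0
      have h2 : (n : ℝ) ^ α' ≤ (n : ℝ) ^ α := Real.rpow_le_rpow_of_exponent_le hn hα
      exact mul_le_mul hc h2 (by positivity) (hc0.le.trans hc)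
  calc C * Real.exp (-(c * (n : ℝ) ^ α)) ≤ C' * Real.exp (-(c * (n : ℝ) ^ α)) :=
        mul_le_mul_of_nonneg_right hC (Real.exp_pos _).le
    _ ≤ C' * Real.exp (-(c' * (n : ℝ) ^ α')) := mul_le_mul_of_nonneg_left h1 hC'

theorem tails_of {S X : Type} [MeasurableSpace X] {μ : Measure X} {f g : S → X → X}
    {C c α C' c' α' : ℝ} (hc : 0 < c) (hα : 0 < α) (hc' : 0 < c') (hα' : 0 < α')
    (h : Tail μ f g C c α) (h' : Tail μ g f C' c' α') : Tails μ f g := by
  refine ⟨max (max C C') 0, min c c', min α α', lt_min hc hc', lt_min hα hα', ?_, ?_⟩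
  · exact tail_mono h ((le_max_left _ _).trans (le_max_left _ _)) (le_max_right _ _)
      (min_le_left _ _) (lt_min hc hc') (min_le_left _ _) (lt_min hα hα')
  · exact tail_mono h' ((le_max_right _ _).trans (le_max_left _ _)) (le_max_right _ _)
      (min_le_right _ _) (lt_min hc hc') (min_le_right _ _) (lt_min hα hα')

theorem tail_self {S X : Type} [MeasurableSpace X] (μ : Measure X) [IsProbabilityMeasure μ]
    (f : S → X → X) : Tail μ f f (Real.exp 1) 1 1 := by
  intro n a
  rcases Nat.eq_zero_or_pos n with h0 | h0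
  · refine prob_le_one.trans ?_
    rw [h0]
    have h1 : Real.exp 1 * Real.exp (-(1 * ((0 : ℕ) : ℝ) ^ (1 : ℝ))) = Real.exp 1 := by simp
    rw [h1, ← ENNReal.ofReal_one]
    exact ENNReal.ofReal_le_ofReal (Real.one_le_exp (by norm_num))
  · have h1 : {x | ¬ ∃ w : List S, w.length ≤ n ∧ run f w x = f a x} = ∅ := by
      rw [Set.eq_empty_iff_forall_notMem]
      intro x hx
      exact hx ⟨[a], by rw [List.length_singleton]; exact h0, rfl⟩
    rw [h1, measure_empty]
    exact bot_le

theorem th_chain (hstep : S_STEP) (hframe : S_FRAME) (hnear : S_NEAR) (hnearm : S_NEARM)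
    (horb : S_ORB) (htail : S_TAILT) : S_CHAIN := by
  intro d hd X _ _ μ _ f l hgood e he
  have key : ∀ k ≤ d, ∃ (f' : Ltr d → X → X) (l' : X → unitInterval), Good (bet d k) μ f' l' ∧
      SameOrb μ f f' ∧
      (∀ n : ℕ, μ {x | ¬ Near f f' n x} ≤
        (k : ℝ≥0∞) * ((2 * (d : ℝ≥0∞) + 1) ^ (n + 1) * ENNReal.ofReal e)) ∧
      (3 ≤ d → Tails μ f f') := by
    intro k
    induction k with
    | zero =>
      intro _
      refine ⟨f, l, hgood, ?_, ?_, ?_⟩
      · exact Filter.Eventually.of_forall fun x y ↦ Iff.rfl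
      · intro n
        have h1 : {x | ¬ Near f f n x} = ∅ := by
          rw [Set.eq_empty_iff_forall_notMem]
          intro x hx
          exact hx fun w _ ↦ rfl
        rw [h1, measure_empty]
        exact bot_le
      · intro _
        exact tails_of one_pos one_pos one_pos one_pos (tail_self μ f) (tail_self μ f)
    | succ k ih =>
      intro hk
      obtain ⟨f', l', hg', ho', hn', ht'⟩ := ih (by omega)
      obtain ⟨fr0, fr1, hag, h2, h3, -, -⟩ := hframe d ⟨k, by omega⟩
      obtain ⟨g, l'', Mk, G, hgg, hMk, hMke, hGm, hG0, hGinv, hGw, hGr, hGt⟩ :=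
        hstep (Ltr d) (bet d k) (bet d (k + 1)) (pk ⟨k, by omega⟩) fr0 fr1 hag (h2 hd) X μ f' l'
          hg' e he
      refine ⟨g, l'', hgg, ?_, ?_, ?_⟩
      · exact (horb (Ltr d) X μ f f' g).2 ho'
          ((horb (Ltr d) X μ f' g f).1 G hG0 hGinv hGw)
      · intro n
        have h4 := hnearm (Ltr d) X (bet d k) μ f' g hg'.sys Mk G hMk hG0 hGr n
        have h5 : {x | ¬ Near f g n x} ⊆ {x | ¬ Near f f' n x} ∪ {x | ¬ Near f' g n x} := by
          intro x hx
          by_contra hno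
          rw [Set.mem_union, not_or] at hno
          have h6 : Near f f' n x := not_not.1 hno.1
          have h7 : Near f' g n x := not_not.1 hno.2
          exact hx ((hnear (Ltr d) X f f' g n x).2.2.1 h6 h7)
        have h6 : ((Fintype.card (Ltr d) : ℝ≥0∞) + 1) = 2 * (d : ℝ≥0∞) + 1 := by
          rw [Fintype.card_prod, Fintype.card_fin, Fintype.card_bool]
          push_cast
          ring
        rw [h6, hMke] at h4
        calc μ {x | ¬ Near f g n x} ≤ μ ({x | ¬ Near f f' n x} ∪ {x | ¬ Near f' g n x}) :=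
              measure_mono h5
          _ ≤ μ {x | ¬ Near f f' n x} + μ {x | ¬ Near f' g n x} := measure_union_le _ _
          _ ≤ (k : ℝ≥0∞) * ((2 * (d : ℝ≥0∞) + 1) ^ (n + 1) * ENNReal.ofReal e) +
              (2 * (d : ℝ≥0∞) + 1) ^ (n + 1) * ENNReal.ofReal e := add_le_add (hn' n) h4
          _ = _ := by push_cast; ring
      · intro hd3
        obtain ⟨C, c, α, hc, hα, t1, t2⟩ := ht' hd3
        obtain ⟨C', c', hc', t3, t4⟩ := hGt (h3 hd3)
        obtain ⟨C1, c1, α1, hc1, hα1, t5⟩ := htail (Ltr d) X μ f f' g hg'.sys.mp C c α C' c' 1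
          hc hα hc' one_pos t1 t3
        obtain ⟨C2, c2, α2, hc2, hα2, t6⟩ := htail (Ltr d) X μ g f' f hg'.sys.mp C' c' 1 C c α
          hc' one_pos hc hα t4 t2
        exact tails_of hc1 hα1 hc2 hα2 t5 t6
  exact key d le_rfl

end Pool.Agent.Helper91.OB
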